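import Pool.Agent.Helper38.Weiss.Skew
import Pool.Agent.Helper10.Weiss.U6
import Pool.Agent.Helper51.Weiss.Names
import Pool.Agent.Helper23.Weiss.WF

/-! Packet W-J4: count of separated points. -/

open Set Filter Topology MeasureTheory Pool.Agent.Helper38.Weiss

namespace Pool.Agent.Helper11.Weiss

open Classical in
/-- number of visits -/
noncomputable def hits {Y : Type*} (G : Y → Y) (B : Set Y) (T : ℕ) (z : Y) : ℕ :=
  ((Finset.range T).filter (fun t => G^[t] z ∈ B)).card

theorem hits_eq {Y : Type*} (G : Y → Y) (B : Set Y) (T : ℕ) (z : Y) :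
    (hits G B T z : ℝ) = ∑ k ∈ Finset.range T, B.indicator (fun _ => (1 : ℝ)) (G^[k] z) := by
  classical
  unfold hits
  rw [Finset.card_eq_sum_ones, Finset.sum_filter]
  push_cast
  refine Finset.sum_congr rfl fun k _ => ?_
  by_cases h : G^[k] z ∈ B
  · rw [if_pos h, Set.indicator_of_mem h]
  · rw [if_neg h, Set.indicator_of_notMem h]

theorem hits_meas {Y : Type*} [MeasurableSpace Y] {G : Y → Y} (hG : Measurable G) {B : Set Y}
    (hB : MeasurableSet B) (T : ℕ) : Measurable (fun z => (hits G B T z : ℝ)) := by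
  simp only [hits_eq]
  refine Finset.measurable_sum _ fun k _ => ?_
  exact (measurable_const.indicator hB).comp (hG.iterate k)

theorem tendsto_one_of_compl {Y : Type*} [MeasurableSpace Y] {μ : Measure Y}
    [IsProbabilityMeasure μ] {s : ℕ → Set Y}
    (h : Tendsto (fun T => μ (s T)ᶜ) atTop (𝓝 0)) : Tendsto (fun T => μ (s T)) atTop (𝓝 1) := by
  have h1 : Tendsto (fun T => 1 - μ (s T)ᶜ) atTop (𝓝 (1 - 0)) :=
    ENNReal.Tendsto.sub tendsto_const_nhds h (Or.inl ENNReal.one_ne_top)
  rw [tsub_zero] at h1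
  refine tendsto_of_tendsto_of_tendsto_of_le_of_le h1 tendsto_const_nhds (fun T => ?_)
    (fun T => prob_le_one)
  rw [tsub_le_iff_right]
  have : (1 : ENNReal) = μ univ := measure_univ.symm
  rw [this, ← Set.union_compl_self (s T)]
  exact measure_union_le _ _

theorem compl_of_tendsto_one {Y : Type*} [MeasurableSpace Y] {μ : Measure Y}
    [IsProbabilityMeasure μ] {s : ℕ → Set Y} (hs : ∀ T, MeasurableSet (s T))
    (h : Tendsto (fun T => μ (s T)) atTop (𝓝 1)) : Tendsto (fun T => μ (s T)ᶜ) atTop (𝓝 0) := by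
  have h1 : Tendsto (fun T => 1 - μ (s T)) atTop (𝓝 (1 - 1)) :=
    ENNReal.Tendsto.sub tendsto_const_nhds h (Or.inl ENNReal.one_ne_top)
  rw [tsub_self] at h1
  refine h1.congr fun T => ?_
  rw [prob_compl_eq_one_sub (hs T)]

theorem hits_le {Y : Type*} (G : Y → Y) (B : Set Y) (T : ℕ) (z : Y) : hits G B T z ≤ T := by
  classical
  unfold hits
  exact (Finset.card_filter_le _ _).trans (by simp)

theorem few {Y : Type*} [MeasurableSpace Y] (μ : Measure Y) [IsProbabilityMeasure μ] (G : Y → Y)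
    (hG : Ergodic G μ) (B : Set Y) (hB : MeasurableSet B) (κ : ℝ) (hκ : (μ B).toReal < κ) :
    Tendsto (fun T : ℕ => μ {z | (hits G B T z : ℝ) ≤ κ * T}) atTop (𝓝 1) := by
  have h := Pool.Agent.Helper23.Weiss.rot_ergodic μ G hG 1 one_pos B hB
  set d : ℝ := κ - (μ B).toReal with hd
  have hd0 : 0 < d := by rw [hd]; linarith
  set f : ℕ → Y → ℝ := fun T z => |(hits G B T z : ℝ) / T - (μ B).toReal| with hf
  have hfm : ∀ T, Measurable (f T) := fun T =>
    (((hits_meas hG.measurable hB T).div_const _).sub_const _).abs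
  have h2 : Tendsto (fun T => ∫ z, f T z ∂μ) atTop (𝓝 0) := by
    refine h.congr fun T => ?_
    refine integral_congr_ae (Eventually.of_forall fun z => ?_)
    simp only [hf, hits_eq, Finset.range_one, Finset.sum_singleton, zero_mul, zero_add, mul_one,
      Nat.cast_one, one_mul]
  have hint : ∀ T, Integrable (f T) μ := by
    intro T
    refine Integrable.of_bound (hfm T).aestronglyMeasurable (1 + 1) (Eventually.of_forall fun z => ?_)
    rw [Real.norm_eq_abs, hf]
    simp only [abs_abs]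
    have h3 : |(hits G B T z : ℝ) / T| ≤ 1 := by
      rw [abs_of_nonneg (by positivity)]
      have : (hits G B T z : ℝ) ≤ T := by exact_mod_cast hits_le G B T z
      exact div_le_one_of_le₀ this (by positivity)
    have h4 : |(μ B).toReal| ≤ 1 := by
      rw [abs_of_nonneg ENNReal.toReal_nonneg]
      exact ENNReal.toReal_le_of_le_ofReal zero_le_one (by rw [ENNReal.ofReal_one]; exact prob_le_one)
    exact (abs_sub _ _).trans (add_le_add h3 h4)
  refine tendsto_one_of_compl ?_
  have h5 : ∀ T : ℕ, 0 < T → μ {z | (hits G B T z : ℝ) ≤ κ * T}ᶜ ≤ ENNReal.ofReal ((∫ z, f T z ∂μ) / d) := by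
    intro T hT
    have hsub : {z | (hits G B T z : ℝ) ≤ κ * T}ᶜ ⊆ {z | d ≤ f T z} := by
      intro z hz
      have hz1 : κ * T < (hits G B T z : ℝ) := not_le.1 hz
      show d ≤ |(hits G B T z : ℝ) / T - (μ B).toReal|
      refine le_trans ?_ (le_abs_self _)
      rw [hd]
      have : κ < (hits G B T z : ℝ) / T := by
        rw [lt_div_iff₀ (by exact_mod_cast hT)]
        exact hz1
      linarith
    have h6 := mul_meas_ge_le_integral_of_nonneg (μ := μ) (f := f T)
      (Eventually.of_forall fun z => abs_nonneg _) (hint T) d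
    refine (measure_mono hsub).trans ?_
    rw [ENNReal.le_ofReal_iff_toReal_le (measure_ne_top _ _) (by
      refine div_nonneg (integral_nonneg fun z => abs_nonneg _) hd0.le)]
    rw [le_div_iff₀ hd0, mul_comm]
    exact h6
  have h7 : Tendsto (fun T => ENNReal.ofReal ((∫ z, f T z ∂μ) / d)) atTop (𝓝 0) := by
    have := (h2.div_const d)
    rw [zero_div] at this
    have h8 := ENNReal.tendsto_ofReal this
    rw [ENNReal.ofReal_zero] at h8
    exact h8
  refine tendsto_of_tendsto_of_tendsto_of_le_of_le' tendsto_const_nhds h7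
    (Eventually.of_forall fun T => bot_le) ?_
  filter_upwards [eventually_gt_atTop 0] with T hT
  exact h5 T hT

theorem skew_iter {X : Type*} (F : X → X) (n : ℕ) (t : ℕ) (z : X × (ℕ → Fin n)) :
    (skew F n)^[t] z = (F^[t] z.1, fun s => z.2 (s + t)) := by
  induction t with
  | zero => rfl
  | succ t ih =>
    rw [Function.iterate_succ_apply', ih, Function.iterate_succ_apply']
    show (F (F^[t] z.1), fun s => z.2 (s + 1 + t)) = _
    refine Prod.ext rfl ?_
    funext s
    show z.2 (s + 1 + t) = z.2 (s + (t + 1))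
    rw [show s + 1 + t = s + (t + 1) by omega]

/-- the conflicts between different pieces -/
def SS {X : Type*} {n : ℕ} (K : Fin n → Set X) : Set (X × X) :=
  {z | ∃ i j, i ≠ j ∧ z.1 ∈ K i ∧ z.2 ∈ K j}

theorem SS_symm {X : Type*} {n : ℕ} {K : Fin n → Set X} {x y : X} (h : (x, y) ∈ SS K) :
    (y, x) ∈ SS K := by
  obtain ⟨i, j, hij, h1, h2⟩ := h
  exact ⟨j, i, hij.symm, h2, h1⟩

theorem SS_irr {X : Type*} {n : ℕ} {K : Fin n → Set X} (hK : ∀ i j, i ≠ j → Disjoint (K i) (K j))
    (x : X) : (x, x) ∉ SS K := by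
  rintro ⟨i, j, hij, h1, h2⟩
  exact Set.disjoint_left.1 (hK i j hij) h1 h2

/-- the counting step at one time -/
theorem count_step {X : Type*} {n : ℕ} (F : X → X) (K : Fin n → Set X)
    (hK : ∀ i j, i ≠ j → Disjoint (K i) (K j)) (B : Set (X × (ℕ → Fin n)))
    (hB : ∀ z, z ∉ B → z.1 ∈ K (z.2 0)) (T : ℕ) (κ t : ℝ) (ht : 0 < t) (ht1 : t ≤ 1)
    (hκ : 0 ≤ κ) (A : Set X) (R : ℝ)
    (hR : ∀ E : Finset X, (∀ x ∈ E, x ∈ A) →
      (∀ x ∈ E, ∀ y ∈ E, x ≠ y → Conf F (SS K) T x y) → (E.card : ℝ) < R) :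
    (((fun (z : X × (ℕ → Fin n)) (s : Fin T) => ((skew F n)^[s] z).2 0) ''
      {z | z.1 ∈ A ∧ (hits (skew F n) B T z : ℝ) ≤ κ * T}).ncard : ℝ) * t ^ (2 * κ * T) ≤
      R * (1 + t * n) ^ T := by
  classical
  -- bad points of the base
  obtain ⟨Bad, hBad⟩ : ∃ Bad : Set X, ∀ x, x ∈ Bad ↔ ∀ i, x ∉ K i :=
    ⟨{x | ∀ i, x ∉ K i}, fun x => Iff.rfl⟩
  have hsub : ∀ z : X × (ℕ → Fin n), hits F Bad T z.1 ≤ hits (skew F n) B T z := by
    intro z
    unfold hits
    refine Finset.card_le_card fun s hs => ?_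
    rw [Finset.mem_filter] at hs ⊢
    refine ⟨hs.1, ?_⟩
    by_contra hne
    have h1 := hB _ hne
    rw [skew_iter] at h1
    exact (hBad _).1 hs.2 _ h1
  set A' : Set X := {x | x ∈ A ∧ (hits F Bad T x : ℝ) ≤ κ * T} with hA'
  -- a maximal packing
  have hex : ∃ E : Finset X, (∀ x ∈ E, x ∈ A') ∧
      (∀ x ∈ E, ∀ y ∈ E, x ≠ y → Conf F (SS K) T x y) ∧
      ∀ E' : Finset X, (∀ x ∈ E', x ∈ A') →
        (∀ x ∈ E', ∀ y ∈ E', x ≠ y → Conf F (SS K) T x y) → E'.card ≤ E.card := by
    set N : Set ℕ := {c | ∃ E : Finset X, (∀ x ∈ E, x ∈ A') ∧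
      (∀ x ∈ E, ∀ y ∈ E, x ≠ y → Conf F (SS K) T x y) ∧ E.card = c} with hN
    have hne : N.Nonempty := ⟨0, ∅, by simp, by simp, rfl⟩
    have hbd : BddAbove N := by
      refine ⟨⌈R⌉₊, ?_⟩
      rintro c ⟨E, h1, h2, rfl⟩
      have h3 := hR E (fun x hx => (h1 x hx).1) h2
      exact_mod_cast h3.le.trans (Nat.le_ceil R)
    obtain ⟨E, h1, h2, h3⟩ := Nat.sSup_mem hne hbd
    refine ⟨E, h1, h2, fun E' h1' h2' => ?_⟩
    rw [h3]
    exact le_csSup hbd ⟨E', h1', h2', rfl⟩
  obtain ⟨E, hE1, hE2, hE3⟩ := hex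
  have hmax : ∀ x ∈ A', ∃ y ∈ E, ∀ s < T, (F^[s] x, F^[s] y) ∉ SS K := by
    intro x hx
    by_contra hcon
    push Not at hcon
    have hxE : x ∉ E := by
      intro hxE
      obtain ⟨s, _, hs⟩ := hcon x hxE
      exact SS_irr hK _ hs
    have h4 := hE3 (insert x E) (by
      intro y hy
      rcases Finset.mem_insert.1 hy with rfl | hy
      · exact hx
      · exact hE1 y hy) (by
      intro y hy z hz hyz
      rcases Finset.mem_insert.1 hy with hy | hy <;> rcases Finset.mem_insert.1 hz with hz | hz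
      · exact absurd (hy.trans hz.symm) hyz
      · rw [hy]
        exact hcon z hz
      · rw [hz]
        obtain ⟨s, hs, h5⟩ := hcon y hy
        exact ⟨s, hs, SS_symm h5⟩
      · exact hE2 y hy z hz hyz)
    rw [Finset.card_insert_of_notMem hxE] at h4
    omega
  -- the names
  set Z : Set (X × (ℕ → Fin n)) := {z | z.1 ∈ A ∧ (hits (skew F n) B T z : ℝ) ≤ κ * T} with hZ
  set nm : X × (ℕ → Fin n) → Fin T → Fin n := fun z s => ((skew F n)^[s] z).2 0 with hnm
  have hch : ∀ v : Fin T → Fin n, v ∈ nm '' Z → ∃ z : X × (ℕ → Fin n), ∃ y ∈ E, z ∈ Z ∧ nm z = v ∧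
      ∀ s < T, (F^[s] z.1, F^[s] y) ∉ SS K := by
    rintro v ⟨z, hz, rfl⟩
    have hz' : z.1 ∈ A' := ⟨hz.1, le_trans (by exact_mod_cast hsub z) hz.2⟩
    obtain ⟨y, hy, h⟩ := hmax z.1 hz'
    exact ⟨z, y, hy, hz, rfl, h⟩
  have hRpos : 0 < R := by
    have := hR ∅ (by simp) (by simp)
    simpa using this
  rcases Z.eq_empty_or_nonempty with hZe | ⟨z₀, _⟩
  · rw [hZe]
    simp only [Set.image_empty, Set.ncard_empty, Nat.cast_zero, zero_mul]
    positivity
  have : Nonempty (X × (ℕ → Fin n)) := ⟨z₀⟩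
  have : Nonempty X := ⟨z₀.1⟩
  choose! zz yy hyy hzz hnn hcc using hch
  set k : ℕ := ⌊2 * κ * T⌋₊ with hk
  set code : (Fin T → Fin n) → X × (Fin T → Option (Fin n)) := fun v =>
    (yy v, fun s => if (skew F n)^[s] (zz v) ∈ B ∨ F^[s] (yy v) ∈ Bad then some (v s) else none)
    with hcode
  set W : Finset (Fin T → Option (Fin n)) := Finset.univ.filter (fun e =>
      (Finset.univ.filter (fun i => e i ≠ none)).card ≤ k) with hW
  have hfin : (nm '' Z).Finite := Set.toFinite _
  have hcard : hfin.toFinset.card ≤ (E ×ˢ W).card := by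
    refine Finset.card_le_card_of_injOn code (fun v hv => ?_) (fun v hv v' hv' h => ?_)
    · have hv1 : v ∈ nm '' Z := by simpa using hv
      rw [Finset.mem_coe, Finset.mem_product]
      refine ⟨hyy v hv1, ?_⟩
      rw [hW, Finset.mem_filter]
      refine ⟨Finset.mem_univ _, ?_⟩
      rw [hk]
      refine Nat.le_floor ?_
      have h1 : ((Finset.univ.filter (fun i => (code v).2 i ≠ none)).card : ℝ) ≤
          hits (skew F n) B T (zz v) + hits F Bad T (yy v) := by
        have h2 : (Finset.univ.filter (fun i => (code v).2 i ≠ none)).card ≤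
            ((Finset.range T).filter (fun s => (skew F n)^[s] (zz v) ∈ B) ∪
            (Finset.range T).filter (fun s => F^[s] (yy v) ∈ Bad)).card := by
          refine Finset.card_le_card_of_injOn (fun i : Fin T => (i : ℕ)) (fun i hi => ?_)
            (fun i _ j _ h => Fin.ext h)
          rw [Finset.coe_filter] at hi
          have hi2 : (code v).2 i ≠ none := hi.2
          rw [Finset.mem_coe, Finset.mem_union, Finset.mem_filter, Finset.mem_filter,
            Finset.mem_range]
          have h3 : (skew F n)^[i] (zz v) ∈ B ∨ F^[i] (yy v) ∈ Bad := by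
            by_contra hne
            apply hi2
            rw [hcode]
            simp only
            rw [if_neg hne]
          rcases h3 with h3 | h3
          · exact Or.inl ⟨i.2, h3⟩
          · exact Or.inr ⟨i.2, h3⟩
        have h3 := h2.trans (Finset.card_union_le _ _)
        unfold hits
        exact_mod_cast h3
      have h2 : (hits (skew F n) B T (zz v) : ℝ) ≤ κ * T := (hzz v hv1).2
      have h3 : (hits F Bad T (yy v) : ℝ) ≤ κ * T := (hE1 _ (hyy v hv1)).2
      linarith
    · have hv1 : v ∈ nm '' Z := by simpa using hv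
      have hv1' : v' ∈ nm '' Z := by simpa using hv'
      have hy : yy v = yy v' := congrArg Prod.fst h
      have he := congrArg Prod.snd h
      funext s
      have hes := congrFun he s
      rw [hcode] at hes
      simp only at hes
      by_cases c1 : (skew F n)^[s] (zz v) ∈ B ∨ F^[s] (yy v) ∈ Bad
      · by_cases c2 : (skew F n)^[s] (zz v') ∈ B ∨ F^[s] (yy v') ∈ Bad
        · rw [if_pos c1, if_pos c2] at hes
          exact Option.some.inj hes
        · rw [if_pos c1, if_neg c2] at hes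
          exact absurd hes (by simp)
      · by_cases c2 : (skew F n)^[s] (zz v') ∈ B ∨ F^[s] (yy v') ∈ Bad
        · rw [if_neg c1, if_pos c2] at hes
          exact absurd hes (by simp)
        · have key : ∀ v : Fin T → Fin n, v ∈ nm '' Z →
              ¬ ((skew F n)^[s] (zz v) ∈ B ∨ F^[s] (yy v) ∈ Bad) →
              ∀ j, F^[s] (yy v) ∈ K j → v s = j := by
            intro v hv c j hj
            push Not at c
            have h1 := hB _ c.1
            rw [skew_iter] at h1
            simp only at h1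
            have h2 : (zz v).2 (0 + s) = v s := by
              have h3 := congrFun (hnn v hv) s
              rw [hnm] at h3
              simp only [skew_iter] at h3
              exact h3
            rw [h2] at h1
            by_contra hne
            exact hcc v hv s s.2 ⟨v s, j, hne, h1, hj⟩
          have hbad : ¬ F^[s] (yy v) ∈ Bad := fun h => c1 (Or.inr h)
          rw [hBad] at hbad
          simp only [not_forall, not_not] at hbad
          obtain ⟨j, hj⟩ := hbad
          rw [key v hv1 c1 j hj, key v' hv1' c2 j (by rw [← hy]; exact hj)]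
  have hnc : (nm '' Z).ncard = hfin.toFinset.card := Set.ncard_eq_toFinset_card _ hfin
  rw [hnc]
  rw [Finset.card_product] at hcard
  have hW1 : (W.card : ℝ) * t ^ k ≤ (1 + t * n) ^ T := by
    have := Pool.Agent.Helper10.Weiss.card_sparse_le (ι := Fin T) (β := Fin n) k ht ht1
    rw [Fintype.card_fin, Fintype.card_fin] at this
    exact this
  have hEc : (E.card : ℝ) < R := hR E (fun x hx => (hE1 x hx).1) hE2
  have ht2 : t ^ (2 * κ * T) ≤ t ^ k := by
    rw [← Real.rpow_natCast]
    exact Real.rpow_le_rpow_of_exponent_ge ht ht1 (Nat.floor_le (by positivity))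
  calc (hfin.toFinset.card : ℝ) * t ^ (2 * κ * T) ≤ ((E.card : ℝ) * W.card) * t ^ k := by
        refine mul_le_mul (by exact_mod_cast hcard) ht2 (by positivity) (by positivity)
    _ = E.card * (W.card * t ^ k) := by ring
    _ ≤ R * (1 + t * n) ^ T := by
        refine mul_le_mul hEc.le hW1 (by positivity) ?_
        exact le_trans (by positivity) hEc.le

theorem base_count (n : ℕ) (θ : ℝ) (hθ : 0 < θ) : ∃ κ > 0, ∀ {X : Type*} [MetricSpace X]
    [CompactSpace X] [MeasurableSpace X] [BorelSpace X] (F : X → X), Continuous F →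
    ∀ (K : Fin n → Set X), (∀ i, IsClosed (K i)) → (∀ i j, i ≠ j → Disjoint (K i) (K j)) →
    ∀ (m : Measure (X × (ℕ → Fin n))), IsProbabilityMeasure m → Ergodic (skew F n) m →
    ∀ B : Set (X × (ℕ → Fin n)), MeasurableSet B → (∀ z, z ∉ B → z.1 ∈ K (z.2 0)) →
    (m B).toReal < κ → ∀ A : ℕ → Set X, (∀ T, MeasurableSet (A T)) →
    Tendsto (fun T => m (Prod.fst ⁻¹' A T)) atTop (𝓝 1) → ∃ T₀ : ℕ, ∀ T ≥ T₀,
    ∃ E : Finset X, (∀ x ∈ E, x ∈ A T) ∧
      (∀ x ∈ E, ∀ y ∈ E, x ≠ y → Conf F {z | ∃ i j, i ≠ j ∧ z.1 ∈ K i ∧ z.2 ∈ K j} T x y) ∧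
      Real.exp (T * (hInf m (skew F n) (fun z => z.2 0) - θ)) ≤ E.card := by
  set t : ℝ := min 1 (θ / (4 * (n + 1))) with ht
  have ht0 : 0 < t := lt_min one_pos (by positivity)
  have ht1 : t ≤ 1 := min_le_left _ _
  have hlog : Real.log (1 + t * n) ≤ θ / 4 := by
    have h1 : Real.log (1 + t * n) ≤ (1 + t * n) - 1 := Real.log_le_sub_one_of_pos (by positivity)
    have h2 : t * n ≤ θ / (4 * (n + 1)) * n := by
      have := min_le_right (1 : ℝ) (θ / (4 * (n + 1)))
      gcongr
    have h3 : θ / (4 * (n + 1)) * n ≤ θ / 4 := by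
      rw [div_mul_eq_mul_div, div_le_div_iff₀ (by positivity) (by norm_num)]
      nlinarith
    linarith
  have hlt : Real.log t ≤ 0 := Real.log_nonpos ht0.le ht1
  set κ : ℝ := θ / (8 * (1 - Real.log t)) with hκ
  have hκ0 : 0 < κ := by
    rw [hκ]
    have : 0 < 1 - Real.log t := by linarith
    positivity
  have hκ1 : 2 * κ * (- Real.log t) ≤ θ / 4 := by
    rw [hκ]
    have h0 : 0 < 1 - Real.log t := by linarith
    have : 2 * (θ / (8 * (1 - Real.log t))) * (-Real.log t) =
        θ / 4 * ((-Real.log t) / (1 - Real.log t)) := by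
      field_simp
      ring
    rw [this]
    have h1 : (-Real.log t) / (1 - Real.log t) ≤ 1 := by
      rw [div_le_one h0]
      linarith
    nlinarith
  refine ⟨κ, hκ0, ?_⟩
  intro X _ _ _ _ F hF K hKc hK m _ hm B hBm hB hBκ A hA hA1
  have hfew := few m (skew F n) hm B hBm κ hBκ
  have hmeas : ∀ T : ℕ, MeasurableSet {z | (hits (skew F n) B T z : ℝ) ≤ κ * T} := fun T =>
    measurableSet_le (hits_meas hm.measurable hBm T) measurable_const
  have hZm : ∀ T : ℕ, MeasurableSet {z : X × (ℕ → Fin n) | z.1 ∈ A T ∧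
      (hits (skew F n) B T z : ℝ) ≤ κ * T} := fun T =>
    (measurable_fst (hA T)).inter (hmeas T)
  have hZ1 : Tendsto (fun T : ℕ => m {z : X × (ℕ → Fin n) | z.1 ∈ A T ∧
      (hits (skew F n) B T z : ℝ) ≤ κ * T}) atTop (𝓝 1) := by
    refine tendsto_one_of_compl ?_
    have h1 := compl_of_tendsto_one (fun T => measurable_fst (hA T)) hA1
    have h2 := compl_of_tendsto_one hmeas hfew
    have h3 := h1.add h2
    rw [add_zero] at h3
    refine tendsto_of_tendsto_of_tendsto_of_le_of_le tendsto_const_nhds h3 (fun T => bot_le)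
      (fun T => ?_)
    refine le_trans (measure_mono ?_) (measure_union_le _ _)
    intro z hz
    by_contra hcon
    rw [Set.mem_union, not_or, Set.notMem_compl_iff, Set.notMem_compl_iff] at hcon
    exact hz ⟨hcon.1, hcon.2⟩
  obtain ⟨T₀, hT₀⟩ := Pool.Agent.Helper51.Weiss.names_count m (skew F n) hm.measurable (fun z => z.2 0)
    ((measurable_pi_apply 0).comp measurable_snd) _ hZm hZ1 (θ / 4) (by positivity)
  refine ⟨max T₀ 1, fun T hT' => ?_⟩
  have hT : T₀ ≤ T := (le_max_left _ _).trans hT'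
  have hT1 : 1 ≤ T := (le_max_right _ _).trans hT'
  by_contra hcon
  push Not at hcon
  have h1 := count_step F K hK B hB T κ t ht0 ht1 hκ0.le (A T)
    (Real.exp (T * (hInf m (skew F n) (fun z => z.2 0) - θ))) (fun E hE1 hE2 => hcon E hE1 hE2)
  have h2 := hT₀ T hT
  have h3 : t ^ (2 * κ * T) = Real.exp (-(T * (2 * κ * (- Real.log t)))) := by
    rw [Real.rpow_def_of_pos ht0]
    congr 1
    ring
  have h4 : (1 + t * n) ^ T ≤ Real.exp (T * (θ / 4)) := by
    rw [← Real.exp_log (show (0 : ℝ) < (1 + t * n) ^ T by positivity), Real.log_pow]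
    exact Real.exp_le_exp.2 (by gcongr)
  have h5 : Real.exp (T * (hInf m (skew F n) (fun z => z.2 0) - θ / 4)) *
      Real.exp (-(T * (θ / 4))) ≤
      Real.exp (T * (hInf m (skew F n) (fun z => z.2 0) - θ)) * Real.exp (T * (θ / 4)) := by
    refine le_trans (mul_le_mul h2 ?_ (by positivity) (by positivity)) (h1.trans ?_)
    · rw [h3]
      refine Real.exp_le_exp.2 (neg_le_neg ?_)
      gcongr
    · gcongr
  rw [← Real.exp_add, ← Real.exp_add, Real.exp_le_exp] at h5
  have h6 : (1 : ℝ) ≤ T := by exact_mod_cast hT1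
  have h7 : 0 < (T : ℝ) * θ := by positivity
  linarith

end Pool.Agent.Helper11.Weiss
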